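import Mathlib
import Pool.Agent.H23.ClawCycA

set_option autoImplicit false

namespace Pool.Agent.Results.MP_6859a2_co.Exact
open Pool.Agent.H23.ClawCyc

theorem result (k : ℕ) (hk : 1 ≤ k) : IsLeast {c : ℕ | Works k c} (3 * k - 1) :=
  ⟨upper k hk, fun c hc => lower k hk c hc⟩

end Pool.Agent.Results.MP_6859a2_co.Exact
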